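import Mathlib
import Pool.Agent.Helper249.RC.Cover
import Pool.Agent.Helper249.RC.Support
import Pool.Agent.Y586.RC.Cube

/-!
MP_b8145f_gt, Q1: for which domains `X` do all compact subspaces of `B_1(X)` belong to the class
`𝒮`?
-/

set_option autoImplicit false

open MeasureTheory Set Filter Topology TopologicalSpace

universe u v

namespace Pool.Agent.Results.MP_b8145f_gt.SeparableDomains

open Pool.Agent.Helper249.RC
open Pool.Agent.Y586.RC

theorem pos {X : Type u} {Z : Type v} [TopologicalSpace X] [PolishSpace X] [TopologicalSpace Z]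
    (g : X → Z) (hg : Continuous g) (hs : Function.Surjective g) (K : Set (Z → ℝ))
    (hK : IsCompact K) (hB : ∀ f ∈ K, BaireOne f) : ClassS K := by
  haveI : CompactSpace K := isCompact_iff_compactSpace.1 hK
  refine ⟨inferInstance, inferInstance, ?_⟩
  intro μ hμ hreg
  letI : MeasurableSpace K := borel K
  haveI : BorelSpace K := ⟨rfl⟩
  haveI : IsProbabilityMeasure μ := hμ
  haveI : μ.Regular := hreg
  have hpi := Real.pi_pos
  let F : X → K → ℝ := fun x f => 1 / 2 + Real.arctan (f.1 (g x)) / Real.pi
  have hc : ∀ z, Continuous (F z) := by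
    intro z
    have h1 : Continuous (fun f : K => f.1 (g z)) :=
      (continuous_apply (g z)).comp continuous_subtype_val
    exact continuous_const.add ((Real.continuous_arctan.comp h1).div_const _)
  have hb : ∀ z f, F z f ∈ Icc (0 : ℝ) 1 := by
    intro z f
    have h1 := Real.arctan_lt_pi_div_two (f.1 (g z))
    have h2 := Real.neg_pi_div_two_lt_arctan (f.1 (g z))
    have h3 : -(1 / 2) ≤ Real.arctan (f.1 (g z)) / Real.pi := by
      rw [le_div_iff₀ hpi]; linarith
    have h4 : Real.arctan (f.1 (g z)) / Real.pi ≤ 1 / 2 := by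
      rw [div_le_iff₀ hpi]; linarith
    exact ⟨by simp only [F]; linarith, by simp only [F]; linarith⟩
  have hsep : ∀ f g, (∀ x, F x f = F x g) → f = g := by
    intro f f' h
    apply Subtype.ext
    funext z
    obtain ⟨x, rfl⟩ := hs z
    have h1 := h x
    simp only [F] at h1
    have h2 : Real.arctan (f.1 (g x)) / Real.pi = Real.arctan (f'.1 (g x)) / Real.pi := by
      linarith
    rw [div_left_inj' hpi.ne'] at h2
    exact Real.arctan_injective h2
  have hF : Frag F := by
    refine frag_baireOne F fun f => ?_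
    obtain ⟨k, hk1, hk2⟩ := hB f.1 f.2
    refine ⟨fun n x => 1 / 2 + Real.arctan (k n (g x)) / Real.pi, fun n => ?_, fun x => ?_⟩
    · exact continuous_const.add ((Real.continuous_arctan.comp ((hk1 n).comp hg)).div_const _)
    · exact (((Real.continuous_arctan.tendsto _).comp (hk2 (g x))).div_const _).const_add _
  exact support μ F hc hb hsep fun η hη => cover μ F hc hb hF η hη

theorem baireOne_indicator {X : Type u} [TopologicalSpace X] [MetrizableSpace X] {A : Set X}
    (hA : IsClosed A) : BaireOne (A.indicator (1 : X → ℝ)) := by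
  letI := metrizableSpaceMetric X
  have hd0 : ∀ n : ℕ, 0 < 1 / ((n : ℝ) + 1) := fun n => by positivity
  have hd1 : Tendsto (fun n : ℕ => 1 / ((n : ℝ) + 1)) atTop (𝓝 0) :=
    tendsto_one_div_add_atTop_nhds_zero_nat
  have h := thickenedIndicator_tendsto_indicator_closure hd0 hd1 A
  rw [hA.closure_eq, tendsto_pi_nhds] at h
  refine ⟨fun n x => (thickenedIndicator (hd0 n) A x : ℝ), fun n => ?_, fun x => ?_⟩
  · exact NNReal.continuous_coe.comp (thickenedIndicator (hd0 n) A).continuous
  · have h2 := (NNReal.tendsto_coe (f := atTop)).2 (h x)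
    have h3 : ((A.indicator (fun _ => (1 : NNReal)) x : NNReal) : ℝ) = A.indicator 1 x := by
      by_cases hx : x ∈ A
      · simp [hx]
      · simp [hx]
    rw [h3] at h2
    exact h2

theorem exists_separated {X : Type u} [TopologicalSpace X] [MetrizableSpace X]
    (hX : ¬ SeparableSpace X) : ∃ D : Set X, ¬ D.Countable ∧ ∀ A ⊆ D, IsClosed A := by
  letI := metrizableSpaceMetric X
  have h1 : ¬ ∀ ε > (0 : ℝ), ∃ s : Set X, s.Countable ∧ ∀ x, ∃ y ∈ s, dist x y ≤ ε := by
    intro h
    haveI := Metric.secondCountable_of_almost_dense_set h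
    exact hX inferInstance
  push Not at h1
  obtain ⟨ε, hε, h1⟩ := h1
  obtain ⟨D, hD⟩ := zorn_subset {D : Set X | D.Pairwise fun x y => ε ≤ dist x y} (by
    intro c hc hchain
    refine ⟨⋃₀ c, ?_, fun s hs => subset_sUnion_of_mem hs⟩
    exact (pairwise_sUnion hchain.directedOn).2 fun a ha => hc ha)
  refine ⟨D, fun hcount => ?_, fun A hA => ?_⟩
  · obtain ⟨x, hx⟩ := h1 D hcount
    have hxD : x ∈ D := by
      have h2 : insert x D ∈ {D : Set X | D.Pairwise fun x y => ε ≤ dist x y} := by
        refine hD.1.insert fun y hy _ => ⟨(hx y hy).le, ?_⟩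
        rw [dist_comm]
        exact (hx y hy).le
      exact hD.2 h2 (subset_insert x D) (mem_insert x D)
    have h3 := hx x hxD
    rw [dist_self] at h3
    linarith
  · exact Metric.isClosed_of_pairwise_le_dist hε fun x hx y hy hxy =>
      hD.1 (hA hx) (hA hy) hxy

/-- (1) Let `Z` be a continuous image of a Polish space. Then every compact subspace `K` of
`B_1(Z)` belongs to the class `𝒮` (for `Z = ℕ^ℕ` this is the question). (2) A completely
metrizable space `X` has the property that every compact subspace of `B_1(X)` belongs to `𝒮` if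
and only if `X` is separable; (3) the property fails for every non-separable metrizable space; and
(4) it fails for every topological space `X` with an uncountable subset `D` such that the
indicator functions of all subsets of `D` are of the first Baire class (for example for the
uncountable Q-sets on the line): they form a compact space not in `𝒮`. -/
theorem result :
    (∀ (X : Type u) (Z : Type v) [TopologicalSpace X] [PolishSpace X] [TopologicalSpace Z]
      (g : X → Z), Continuous g → Function.Surjective g →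
      ∀ K : Set (Z → ℝ), IsCompact K → (∀ f ∈ K, BaireOne f) → ClassS K) ∧
    (∀ (X : Type u) [TopologicalSpace X] [IsCompletelyMetrizableSpace X],
      (∀ K : Set (X → ℝ), IsCompact K → (∀ f ∈ K, BaireOne f) → ClassS K) ↔
        SeparableSpace X) ∧
    (∀ (X : Type u) [TopologicalSpace X] [MetrizableSpace X], ¬ SeparableSpace X →
      ∃ K : Set (X → ℝ), IsCompact K ∧ (∀ f ∈ K, BaireOne f) ∧ ¬ ClassS K) ∧
    ∀ (X : Type u) [TopologicalSpace X] (D : Set X), ¬ D.Countable →
      (∀ A ⊆ D, BaireOne (A.indicator (1 : X → ℝ))) →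
      ∃ K : Set (X → ℝ), K = {f | ∃ A ⊆ D, f = A.indicator 1} ∧ IsCompact K ∧
        (∀ f ∈ K, BaireOne f) ∧ ¬ ClassS K := by
  have h4 : ∀ (X : Type u) [TopologicalSpace X] (D : Set X), ¬ D.Countable →
      (∀ A ⊆ D, BaireOne (A.indicator (1 : X → ℝ))) →
      ∃ K : Set (X → ℝ), K = {f | ∃ A ⊆ D, f = A.indicator 1} ∧ IsCompact K ∧
        (∀ f ∈ K, BaireOne f) ∧ ¬ ClassS K := by
    intro X _ D hD hA
    refine ⟨ind D, rfl, isCompact_ind D, ?_, not_classS_ind D hD⟩
    rintro f ⟨A, hAD, rfl⟩
    exact hA A hAD
  have h3 : ∀ (X : Type u) [TopologicalSpace X] [MetrizableSpace X], ¬ SeparableSpace X →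
      ∃ K : Set (X → ℝ), IsCompact K ∧ (∀ f ∈ K, BaireOne f) ∧ ¬ ClassS K := by
    intro X _ _ hX
    obtain ⟨D, hD1, hD2⟩ := exists_separated hX
    obtain ⟨K, -, hK⟩ := h4 X D hD1 fun A hA => baireOne_indicator (hD2 A hA)
    exact ⟨K, hK⟩
  refine ⟨fun X Z _ _ _ g hg hs K hK hB => pos g hg hs K hK hB, fun X _ _ => ⟨fun h => ?_,
    fun h K hK hB => ?_⟩, h3, h4⟩
  · by_contra hX
    obtain ⟨K, hK1, hK2, hK3⟩ := h3 X hX
    exact hK3 (h K hK1 hK2)
  · letI := upgradeIsCompletelyMetrizable X
    haveI : SecondCountableTopology X := UniformSpace.secondCountable_of_separable X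
    haveI : PolishSpace X := {}
    exact pos (id : X → X) continuous_id Function.surjective_id K hK hB

end Pool.Agent.Results.MP_b8145f_gt.SeparableDomains
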